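import Mathlib

open MeasureTheory ProbabilityTheory Finset Preorder
open scoped ENNReal NNReal

namespace Pool.Agent.Lib.MP_0b3b8e_pr

variable {S : Type} [MeasurableSpace S]

/-- The kernel giving the next position of a Markov chain with transition kernel `K`, as a
function of the history up to time `n`. -/
noncomputable def histKernel (K : Kernel S S) (n : ℕ) : Kernel (Π _ : Iic n, S) S :=
  K.comap (fun h => h ⟨n, mem_Iic.2 le_rfl⟩) (measurable_pi_apply _)

instance (K : Kernel S S) [IsMarkovKernel K] (n : ℕ) : IsMarkovKernel (histKernel K n) := by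
  unfold histKernel
  infer_instance

/-- The law of the Markov chain with transition kernel `K` started from `s0`. -/
noncomputable def chain (K : Kernel S S) [IsMarkovKernel K] (s0 : S) : Measure (ℕ → S) :=
  Kernel.trajMeasure (X := fun _ => S) (Measure.dirac s0) (histKernel K)

instance (K : Kernel S S) [IsMarkovKernel K] (s0 : S) : IsProbabilityMeasure (chain K s0) := by
  unfold chain
  infer_instance

theorem chain_step (K : Kernel S S) [IsMarkovKernel K] (s0 : S) (N : ℕ)
    (Φ : (Π _ : Iic N, S) × S → ℝ≥0∞) (hΦ : Measurable Φ) :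
    ∫⁻ x, Φ (frestrictLe N x, x (N + 1)) ∂(chain K s0) =
      ∫⁻ x, ∫⁻ y, Φ (frestrictLe N x, y) ∂(K (x N)) ∂(chain K s0) := by
  have h := Kernel.map_frestrictLe_trajMeasure_compProd_eq_map_trajMeasure
    (X := fun _ => S) (μ₀ := Measure.dirac s0) (κ := histKernel K) (a := N)
  have h2 : ∫⁻ z, Φ z ∂((chain K s0).map (fun x => (frestrictLe (π := fun _ => S) N x, x (N + 1)))) =
      ∫⁻ x, Φ (frestrictLe N x, x (N + 1)) ∂(chain K s0) := by
    rw [lintegral_map hΦ (by fun_prop)]
  rw [← h2]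
  unfold chain at *
  rw [← h, Measure.lintegral_compProd hΦ, lintegral_map (hΦ.lintegral_kernel_prod_right') (by fun_prop)]
  rfl

theorem chain_zero (K : Kernel S S) [IsMarkovKernel K] (s0 : S) (f : S → ℝ≥0∞) (hf : Measurable f) :
    ∫⁻ x, f (x 0) ∂(chain K s0) = f s0 := by
  unfold chain Kernel.trajMeasure
  have hf0 : Measurable (fun x : ℕ → S => f (x 0)) := hf.comp (measurable_pi_apply 0)
  rw [Measure.lintegral_bind (by fun_prop) hf0.aemeasurable]
  rw [lintegral_map (by fun_prop) (by fun_prop), lintegral_dirac']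
  · have h2 := Kernel.traj_map_frestrictLe_apply (X := fun _ => S) (κ := histKernel K) 0 0
      ((MeasurableEquiv.piUnique (fun _ : Iic 0 => S)).symm s0)
    have hg : Measurable (fun h : (Π _ : Iic 0, S) => f (h ⟨0, mem_Iic.2 le_rfl⟩)) :=
      hf.comp (measurable_pi_apply _)
    have h3 : ∫⁻ h, f (h ⟨0, mem_Iic.2 le_rfl⟩) ∂(Measure.map (frestrictLe (π := fun _ => S) 0)
        ((Kernel.traj (histKernel K) 0) ((MeasurableEquiv.piUnique (fun _ : Iic 0 => S)).symm s0)))
        = ∫⁻ x, f (x 0) ∂((Kernel.traj (X := fun _ => S) (histKernel K) 0)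
          ((MeasurableEquiv.piUnique (fun _ : Iic 0 => S)).symm s0)) := by
      rw [lintegral_map hg (by fun_prop)]
      rfl
    rw [h2] at h3
    rw [← h3, Kernel.partialTraj_self, Kernel.id_apply, lintegral_dirac' _ hg]
    rfl
  · fun_prop

/-- If `V` is a (time dependent) nonnegative function which is at least `1` on the bad sets and
decreases in mean from the good positions, the chain hits the bad sets with probability at most
`V 0 s0`. -/
theorem chain_bad_le (K : Kernel S S) [IsMarkovKernel K] (s0 : S) (V : ℕ → S → ℝ≥0∞)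
    (hV : ∀ n, Measurable (V n)) (Bad : ℕ → Set S) (hBad : ∀ n, MeasurableSet (Bad n))
    (h1 : ∀ n, ∀ s ∈ Bad n, 1 ≤ V n s)
    (hstep : ∀ n, ∀ s ∉ Bad n, ∫⁻ y, V (n + 1) y ∂(K s) ≤ V n s) :
    chain K s0 {x | ∃ n, x n ∈ Bad n} ≤ V 0 s0 := by
  classical
  set G : ℕ → (ℕ → S) → ℝ≥0∞ := fun N x => if ∃ n ≤ N, x n ∈ Bad n then 1 else V N (x N) with hG
  have hmeas : ∀ N, MeasurableSet {x : ℕ → S | ∃ n ≤ N, x n ∈ Bad n} := by
    intro N
    have : {x : ℕ → S | ∃ n ≤ N, x n ∈ Bad n} = ⋃ n ∈ Finset.range (N + 1), {x | x n ∈ Bad n} := by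
      ext x
      simp
    rw [this]
    exact Finset.measurableSet_biUnion _ (fun n _ => (measurable_pi_apply n) (hBad n))
  have hGstep : ∀ N, ∫⁻ x, G (N + 1) x ∂(chain K s0) ≤ ∫⁻ x, G N x ∂(chain K s0) := by
    intro N
    set Φ : (Π _ : Iic N, S) × S → ℝ≥0∞ := fun z =>
      if ∃ n : Iic N, z.1 n ∈ Bad n then 1 else V (N + 1) z.2 with hΦ
    have hΦm : Measurable Φ := by
      refine Measurable.ite ?_ measurable_const ((hV (N + 1)).comp measurable_snd)
      have : {a : (Π _ : Iic N, S) × S | ∃ n : Iic N, a.1 n ∈ Bad n} =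
          ⋃ n : Iic N, {a : (Π _ : Iic N, S) × S | a.1 n ∈ Bad n} := by
        ext x
        simp
      rw [this]
      exact MeasurableSet.iUnion (fun n =>
        ((measurable_pi_apply n).comp measurable_fst) (hBad n))
    have e1 : ∀ x : ℕ → S, G (N + 1) x ≤ Φ (frestrictLe (π := fun _ => S) N x, x (N + 1)) := by
      intro x
      simp only [hG, hΦ]
      by_cases hb : ∃ n ≤ N, x n ∈ Bad n
      · have hb' : ∃ n ≤ N + 1, x n ∈ Bad n := by
          obtain ⟨n, hn, hx⟩ := hb
          exact ⟨n, hn.trans (Nat.le_succ N), hx⟩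
        have hb'' : ∃ n : Iic N, frestrictLe (π := fun _ => S) N x n ∈ Bad n := by
          obtain ⟨n, hn, hx⟩ := hb
          exact ⟨⟨n, mem_Iic.2 hn⟩, hx⟩
        rw [if_pos hb', if_pos hb'']
      · have hb'' : ¬ ∃ n : Iic N, frestrictLe (π := fun _ => S) N x n ∈ Bad n := by
          rintro ⟨⟨n, hn⟩, hx⟩
          exact hb ⟨n, mem_Iic.1 hn, hx⟩
        rw [if_neg hb'']
        by_cases hb' : ∃ n ≤ N + 1, x n ∈ Bad n
        · rw [if_pos hb']
          obtain ⟨n, hn, hx⟩ := hb'
          rcases Nat.lt_or_ge N n with h | h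
          · have : n = N + 1 := le_antisymm hn h
            subst this
            exact h1 _ _ hx
          · exact absurd ⟨n, h, hx⟩ hb
        · rw [if_neg hb']
    calc ∫⁻ x, G (N + 1) x ∂(chain K s0)
        ≤ ∫⁻ x, Φ (frestrictLe (π := fun _ => S) N x, x (N + 1)) ∂(chain K s0) :=
          lintegral_mono e1
      _ = ∫⁻ x, ∫⁻ y, Φ (frestrictLe (π := fun _ => S) N x, y) ∂(K (x N)) ∂(chain K s0) :=
          chain_step K s0 N Φ hΦm
      _ ≤ ∫⁻ x, G N x ∂(chain K s0) := by
          refine lintegral_mono (fun x => ?_)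
          simp only [hG, hΦ]
          by_cases hb : ∃ n ≤ N, x n ∈ Bad n
          · have hb'' : ∃ n : Iic N, frestrictLe (π := fun _ => S) N x n ∈ Bad n := by
              obtain ⟨n, hn, hx⟩ := hb
              exact ⟨⟨n, mem_Iic.2 hn⟩, hx⟩
            simp only [if_pos hb, if_pos hb'']
            simp
          · have hb'' : ¬ ∃ n : Iic N, frestrictLe (π := fun _ => S) N x n ∈ Bad n := by
              rintro ⟨⟨n, hn⟩, hx⟩
              exact hb ⟨n, mem_Iic.1 hn, hx⟩
            simp only [if_neg hb, if_neg hb'']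
            exact hstep N (x N) (fun h => hb ⟨N, le_rfl, h⟩)
  have hG0 : ∫⁻ x, G 0 x ∂(chain K s0) ≤ V 0 s0 := by
    rw [← chain_zero K s0 (V 0) (hV 0)]
    refine lintegral_mono (fun x => ?_)
    simp only [hG]
    split_ifs with h
    · obtain ⟨n, hn, hx⟩ := h
      obtain rfl : n = 0 := Nat.le_zero.1 hn
      exact h1 _ _ hx
    · exact le_rfl
  have hGN : ∀ N, ∫⁻ x, G N x ∂(chain K s0) ≤ V 0 s0 := by
    intro N
    induction N with
    | zero => exact hG0
    | succ N ih => exact (hGstep N).trans ih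
  have hPN : ∀ N, chain K s0 {x | ∃ n ≤ N, x n ∈ Bad n} ≤ V 0 s0 := by
    intro N
    refine le_trans ?_ (hGN N)
    rw [← lintegral_indicator_one (hmeas N)]
    refine lintegral_mono (fun x => ?_)
    simp only [hG, Set.indicator_apply, Set.mem_ofPred_eq, Pi.one_apply]
    split_ifs
    · exact le_rfl
    · exact zero_le
  have hU : {x : ℕ → S | ∃ n, x n ∈ Bad n} = ⋃ N, {x : ℕ → S | ∃ n ≤ N, x n ∈ Bad n} := by
    ext x
    simp only [Set.mem_ofPred_eq, Set.mem_iUnion]
    constructor
    · rintro ⟨n, hn⟩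
      exact ⟨n, n, le_rfl, hn⟩
    · rintro ⟨_, n, _, hn⟩
      exact ⟨n, hn⟩
  rw [hU, Monotone.measure_iUnion]
  · exact iSup_le hPN
  · intro a b hab x hx
    obtain ⟨n, hn, h⟩ := hx
    exact ⟨n, hn.trans hab, h⟩

end Pool.Agent.Lib.MP_0b3b8e_pr
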