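import Mathlib

namespace Pool.Agent.Lib.MP_0b3b8e_pr

/-- The exponents: `n = j^2 + k` with `0 ≤ k ≤ 2 j`. -/
def ex (n : ℕ) : ℕ :=
  if (n - Nat.sqrt n * Nat.sqrt n) % 2 = 0 then
    3 * (Nat.sqrt n * Nat.sqrt n) - Nat.sqrt n * ((n - Nat.sqrt n * Nat.sqrt n) / 2)
  else
    3 * ((Nat.sqrt n + 1) * (Nat.sqrt n + 1)) +
      Nat.sqrt n * ((n - Nat.sqrt n * Nat.sqrt n) / 2 + 1)

lemma ex_even {j i : ℕ} (h : i ≤ j) : ex (j * j + 2 * i) = 3 * (j * j) - j * i := by
  have hs : Nat.sqrt (j * j + 2 * i) = j := Nat.sqrt_add_eq j (by omega)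
  unfold ex
  rw [hs]
  have h1 : j * j + 2 * i - j * j = 2 * i := by omega
  rw [h1]
  simp

lemma ex_odd {j i : ℕ} (h : i < j) :
    ex (j * j + 2 * i + 1) = 3 * ((j + 1) * (j + 1)) + j * (i + 1) := by
  have hs : Nat.sqrt (j * j + 2 * i + 1) = j := by
    have : j * j + 2 * i + 1 = j * j + (2 * i + 1) := by ring
    rw [this]
    exact Nat.sqrt_add_eq j (by omega)
  unfold ex
  rw [hs]
  have h1 : j * j + 2 * i + 1 - j * j = 2 * i + 1 := by omega
  rw [h1]
  have h2 : (2 * i + 1) % 2 = 1 := by omega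
  have h3 : (2 * i + 1) / 2 = i := by omega
  rw [h2, h3]
  simp

lemma ex_ge (n : ℕ) : n ≤ ex n + 1 := by
  set j := Nat.sqrt n with hj
  have h1 : j * j ≤ n := Nat.sqrt_le n
  have h2 : n ≤ j * j + j + j := Nat.sqrt_le_add n
  obtain ⟨k, hk⟩ : ∃ k, n = j * j + k := ⟨n - j * j, by omega⟩
  have hk2 : k ≤ 2 * j := by omega
  rcases Nat.even_or_odd' k with ⟨i, hi | hi⟩
  · have hij : i ≤ j := by omega
    rw [hk, hi, ex_even hij]
    have : j * i ≤ j * j := Nat.mul_le_mul_left j hij
    zify [show j * i ≤ 3 * (j * j) by omega]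
    nlinarith [sq_nonneg ((j : ℤ) - 1)]
  · have hij : i < j := by omega
    rw [hk, hi, ← add_assoc, ex_odd hij]
    nlinarith

/-- The weights as real numbers. -/
noncomputable def wt (n : ℕ) : ℝ := 2 ^ ex n

lemma wt_pos (n : ℕ) : 0 < wt n := by unfold wt; positivity

/-- Black probability. -/
noncomputable def pb (b r : ℕ) : ℝ := wt b / (wt b + wt r)

/-- One step mean of `f` from totals `(b, r)`, for two urns. -/
noncomputable def stepR (f : ℕ → ℕ → ℝ) (b r : ℕ) : ℝ :=
  (pb b r) ^ 2 * f (b + 2) r + 2 * (pb b r * (1 - pb b r)) * f (b + 1) (r + 1) +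
    (1 - pb b r) ^ 2 * f b (r + 2)

lemma pb_nonneg (b r : ℕ) : 0 ≤ pb b r := by
  unfold pb
  have := wt_pos b
  have := wt_pos r
  positivity

lemma pb_le_one (b r : ℕ) : pb b r ≤ 1 := by
  unfold pb
  have h1 := wt_pos b
  have h2 := wt_pos r
  rw [div_le_one (by positivity)]
  linarith

lemma pb_self (b : ℕ) : pb b b = 1 / 2 := by
  unfold pb
  have h1 := wt_pos b
  field_simp
  ring

lemma pb_symm (b r : ℕ) : pb r b = 1 - pb b r := by
  unfold pb
  have h1 := wt_pos b
  have h2 := wt_pos r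
  field_simp
  ring

lemma pb_small {b r g : ℕ} (h : ex b + g ≤ ex r) : pb b r ≤ (1 / 2) ^ g := by
  unfold pb
  have h1 := wt_pos b
  have h2 := wt_pos r
  rw [div_le_iff₀ (by positivity)]
  have h3 : wt r = wt b * 2 ^ (ex r - ex b) := by
    unfold wt
    rw [← pow_add]
    congr 1
    omega
  have h4 : (2 : ℝ) ^ g ≤ 2 ^ (ex r - ex b) := pow_le_pow_right₀ (by norm_num) (by omega)
  have h5 : (1 / 2 : ℝ) ^ g * 2 ^ g = 1 := by
    rw [← mul_pow]
    norm_num
  have h6 : wt b ≤ (1 / 2 : ℝ) ^ g * wt r := by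
    rw [h3]
    have h7 : (1 / 2 : ℝ) ^ g * (wt b * 2 ^ g) ≤ (1 / 2 : ℝ) ^ g * (wt b * 2 ^ (ex r - ex b)) := by
      gcongr
    have h8 : (1 / 2 : ℝ) ^ g * (wt b * 2 ^ g) = wt b := by
      rw [mul_comm (wt b), ← mul_assoc, h5, one_mul]
    linarith
  have h9 : 0 ≤ (1 / 2 : ℝ) ^ g * wt b := by positivity
  nlinarith

/-- Tail of the failure probabilities. -/
noncomputable def T (j : ℕ) : ℝ := 4 * (j + 3) * (1 / 2) ^ j + 3 * (3 / 4) ^ j

noncomputable def VL (j i : ℕ) : ℝ := T j + 4 * (j + 1) * (1 / 2) ^ j + (3 / 4) ^ (j - i)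

noncomputable def VC (j i : ℕ) : ℝ := (VL j (i + 1) + (T j + 4 * j * (1 / 2) ^ j)) / 2

lemma T_nonneg (j : ℕ) : 0 ≤ T j := by unfold T; positivity

lemma VL_nonneg (j i : ℕ) : 0 ≤ VL j i := by
  unfold VL
  have := T_nonneg j
  positivity

lemma VC_nonneg (j i : ℕ) : 0 ≤ VC j i := by
  unfold VC
  have := T_nonneg j
  have := VL_nonneg j (i + 1)
  positivity

lemma VL_top (j : ℕ) : 1 ≤ VL j j := by
  unfold VL
  have := T_nonneg j
  have h : 0 ≤ 4 * ((j : ℝ) + 1) * (1 / 2) ^ j := by positivity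
  simp only [Nat.sub_self, pow_zero]
  linarith

/-- The good configurations with an upper bound of the failure probability from there. -/
inductive Good : ℕ → ℕ → ℝ → Prop
  | lane (j i : ℕ) (h : i < j) : Good (j * j + 2 * i) (j * j + 2 * i) (VL j i)
  | comp (j i : ℕ) (h : i < j) : Good (j * j + 2 * i + 1) (j * j + 2 * i + 1) (VC j i)
  | laneB (j i : ℕ) (h : i + 1 < j) :
      Good (j * j + 2 * i + 2) (j * j + 2 * i) (VL j (i + 1) + 2 * (1 / 2) ^ j)
  | laneR (j i : ℕ) (h : i + 1 < j) :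
      Good (j * j + 2 * i) (j * j + 2 * i + 2) (VL j (i + 1) + 2 * (1 / 2) ^ j)
  | runB (j i k : ℕ) (h : i < k) (hk : k ≤ j) :
      Good (j * j + 2 * k + 1) (j * j + 2 * i + 1)
        (T j + 2 * (1 / 2) ^ j * (((j : ℝ) - k) + (j - i)))
  | runR (j i k : ℕ) (h : i < k) (hk : k ≤ j) :
      Good (j * j + 2 * i + 1) (j * j + 2 * k + 1)
        (T j + 2 * (1 / 2) ^ j * (((j : ℝ) - k) + (j - i)))

lemma Good.symm {b r : ℕ} {x : ℝ} (h : Good b r x) : Good r b x := by
  cases h with
  | lane j i h => exact Good.lane j i h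
  | comp j i h => exact Good.comp j i h
  | laneB j i h => exact Good.laneR j i h
  | laneR j i h => exact Good.laneB j i h
  | runB j i k h hk => exact Good.runR j i k h hk
  | runR j i k h hk => exact Good.runB j i k h hk

lemma run_nonneg {j i k : ℕ} (h : i < k) (hk : k ≤ j) :
    0 ≤ T j + 2 * (1 / 2) ^ j * (((j : ℝ) - k) + (j - i)) := by
  have h1 := T_nonneg j
  have h2 : (k : ℝ) ≤ j := by exact_mod_cast hk
  have h3 : (i : ℝ) ≤ k := by exact_mod_cast h.le
  have h4 : 0 ≤ 2 * (1 / 2 : ℝ) ^ j * (((j : ℝ) - k) + (j - i)) := by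
    apply mul_nonneg (by positivity)
    linarith
  linarith

lemma Good.nonneg {b r : ℕ} {x : ℝ} (h : Good b r x) : 0 ≤ x := by
  cases h with
  | lane j i h => exact VL_nonneg j i
  | comp j i h => exact VC_nonneg j i
  | laneB j i h => have := VL_nonneg j (i + 1); positivity
  | laneR j i h => have := VL_nonneg j (i + 1); positivity
  | runB j i k h hk => exact run_nonneg h hk
  | runR j i k h hk => exact run_nonneg h hk

/-- The potential. -/
noncomputable def v (b r : ℕ) : ℝ := sInf (insert 1 {x | Good b r x})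

lemma v_bdd (b r : ℕ) : BddBelow (insert 1 {x | Good b r x}) := by
  refine ⟨0, ?_⟩
  rintro x (rfl | hx)
  · norm_num
  · exact Good.nonneg hx

lemma v_le_one (b r : ℕ) : v b r ≤ 1 := csInf_le (v_bdd b r) (Set.mem_insert _ _)

lemma v_le {b r : ℕ} {x : ℝ} (h : Good b r x) : v b r ≤ x :=
  csInf_le (v_bdd b r) (Set.mem_insert_of_mem _ h)

lemma v_nonneg (b r : ℕ) : 0 ≤ v b r := by
  refine le_csInf ⟨1, Set.mem_insert _ _⟩ ?_
  rintro x (rfl | hx)
  · norm_num
  · exact Good.nonneg hx

lemma good_of_v_lt {b r : ℕ} (h : v b r < 1) : ∃ x, Good b r x := by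
  by_contra hc
  push Not at hc
  have : insert 1 {x | Good b r x} = {1} := by
    ext x
    simp [hc x]
  unfold v at h
  rw [this] at h
  simp at h

lemma v_symm (b r : ℕ) : v b r = v r b := by
  unfold v
  congr 1
  ext x
  simp only [Set.mem_insert_iff, Set.mem_ofPred_eq]
  constructor
  · rintro (h | h)
    · exact Or.inl h
    · exact Or.inr h.symm
  · rintro (h | h)
    · exact Or.inl h
    · exact Or.inr h.symm

lemma stepR_symm (b r : ℕ) : stepR v b r = stepR v r b := by
  unfold stepR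
  rw [pb_symm b r, v_symm (b + 2) r, v_symm (b + 1) (r + 1), v_symm b (r + 2)]
  ring

lemma stepR_le_one (b r : ℕ) : stepR v b r ≤ 1 := by
  unfold stepR
  have h1 := pb_nonneg b r
  have h2 := pb_le_one b r
  have a1 := v_le_one (b + 2) r
  have a2 := v_le_one (b + 1) (r + 1)
  have a3 := v_le_one b (r + 2)
  have c1 : (pb b r) ^ 2 * v (b + 2) r ≤ (pb b r) ^ 2 * 1 := by gcongr
  have c2 : 2 * (pb b r * (1 - pb b r)) * v (b + 1) (r + 1) ≤
      2 * (pb b r * (1 - pb b r)) * 1 := by
    have : 0 ≤ 2 * (pb b r * (1 - pb b r)) := by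
      have := mul_nonneg h1 (sub_nonneg.2 h2)
      linarith
    gcongr
  have c3 : (1 - pb b r) ^ 2 * v b (r + 2) ≤ (1 - pb b r) ^ 2 * 1 := by gcongr
  nlinarith

/-- If black has much smaller weight, red gets both balls. -/
lemma stepR_red {b r g : ℕ} (h : ex b + g ≤ ex r) :
    stepR v b r ≤ v b (r + 2) + 2 * (1 / 2) ^ g := by
  have h0 := pb_small h
  unfold stepR
  have h1 := pb_nonneg b r
  have h2 := pb_le_one b r
  have a1 := v_le_one (b + 2) r
  have a2 := v_le_one (b + 1) (r + 1)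
  have a3 := v_nonneg b (r + 2)
  have c1 : (pb b r) ^ 2 * v (b + 2) r ≤ (pb b r) ^ 2 * 1 := by gcongr
  have c2 : 2 * (pb b r * (1 - pb b r)) * v (b + 1) (r + 1) ≤
      2 * (pb b r * (1 - pb b r)) * 1 := by
    have : 0 ≤ 2 * (pb b r * (1 - pb b r)) := by
      have := mul_nonneg h1 (sub_nonneg.2 h2)
      linarith
    gcongr
  have c3 : (1 - pb b r) ^ 2 * v b (r + 2) ≤ 1 * v b (r + 2) := by
    have : (1 - pb b r) ^ 2 ≤ 1 := by nlinarith
    gcongr
  nlinarith

lemma stepR_tie (n : ℕ) :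
    stepR v n n = (v (n + 1) (n + 1) + v (n + 2) n) / 2 := by
  unfold stepR
  rw [pb_self, v_symm n (n + 2)]
  ring

lemma T_succ (j : ℕ) : VL (j + 1) 0 = T j := by
  unfold VL T
  simp only [Nat.sub_zero, Nat.cast_add, Nat.cast_one, pow_succ]
  ring

lemma good_step_aux {b r : ℕ} {x : ℝ} (hbr : b ≤ r) (h : Good b r x) : stepR v b r ≤ x := by
  cases h with
  | lane j i h =>
    rw [stepR_tie]
    have h1 : v (j * j + 2 * i + 1) (j * j + 2 * i + 1) ≤ VC j i := v_le (Good.comp j i h)
    have h2 : v (j * j + 2 * i + 2) (j * j + 2 * i) ≤ VL j (i + 1) + 2 * (1 / 2) ^ j := by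
      rcases Nat.lt_or_ge (i + 1) j with h3 | h3
      · exact v_le (Good.laneB j i h3)
      · obtain rfl : j = i + 1 := by omega
        have := VL_top (i + 1)
        have h4 := v_le_one ((i + 1) * (i + 1) + 2 * i + 2) ((i + 1) * (i + 1) + 2 * i)
        have h5 : (0 : ℝ) ≤ 2 * (1 / 2) ^ (i + 1) := by positivity
        linarith
    have h3 : (3 / 4 : ℝ) ^ (j - i) = 3 / 4 * (3 / 4) ^ (j - (i + 1)) := by
      rw [← pow_succ']
      congr 1
      omega
    have h4 : VL j i = (VC j i + (VL j (i + 1) + 2 * (1 / 2) ^ j)) / 2 := by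
      unfold VC VL
      rw [h3]
      ring
    rw [h4]
    linarith
  | comp j i h =>
    rw [stepR_tie]
    have h1 : v (j * j + 2 * i + 1 + 1) (j * j + 2 * i + 1 + 1) ≤ VL j (i + 1) := by
      rcases Nat.lt_or_ge (i + 1) j with h3 | h3
      · have := v_le (Good.lane j (i + 1) h3)
        convert this using 2 <;> ring
      · obtain rfl : j = i + 1 := by omega
        exact (v_le_one _ _).trans (VL_top (i + 1))
    have h2 : v (j * j + 2 * i + 1 + 2) (j * j + 2 * i + 1) ≤ T j + 4 * j * (1 / 2) ^ j := by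
      have := v_le (Good.runB j i (i + 1) (Nat.lt_succ_self i) h)
      have e : j * j + 2 * i + 1 + 2 = j * j + 2 * (i + 1) + 1 := by ring
      rw [e]
      refine this.trans ?_
      have h5 : (0 : ℝ) ≤ 2 * (1 / 2) ^ j := by positivity
      have h6 : ((j : ℝ) - ((i + 1 : ℕ) : ℝ)) + (j - i) ≤ 2 * j := by
        push_cast
        have : (0 : ℝ) ≤ i := Nat.cast_nonneg i
        linarith
      nlinarith
    unfold VC
    linarith
  | laneB j i h => omega
  | laneR j i h =>
    -- black behind: weight of black larger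
    have h1 : ex (j * j + 2 * i + 2) + j ≤ ex (j * j + 2 * i) := by
      have e : j * j + 2 * i + 2 = j * j + 2 * (i + 1) := by ring
      rw [e, ex_even (by omega : i + 1 ≤ j), ex_even (by omega : i ≤ j)]
      have h2 : j * (i + 1) ≤ j * j := Nat.mul_le_mul_left j (by omega)
      have h3 : j * (i + 1) = j * i + j := by ring
      omega
    rw [stepR_symm]
    refine (stepR_red h1).trans ?_
    have := v_le (Good.lane j (i + 1) h)
    have e : j * j + 2 * i + 2 = j * j + 2 * (i + 1) := by ring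
    rw [e]
    linarith
  | runB j i k h hk => omega
  | runR j i k h hk =>
    have h5 : (0 : ℝ) ≤ 2 * (1 / 2) ^ j := by positivity
    rcases Nat.lt_or_ge k j with hkj | hkj
    · -- red is ahead and moves on
      have h1 : ex (j * j + 2 * i + 1) + j ≤ ex (j * j + 2 * k + 1) := by
        rw [ex_odd (by omega : i < j), ex_odd hkj]
        have h2 : j * (i + 1 + 1) ≤ j * (k + 1) := Nat.mul_le_mul_left j (by omega)
        have h3 : j * (i + 1 + 1) = j * (i + 1) + j := by ring
        omega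
      refine (stepR_red h1).trans ?_
      have h6 := v_le (Good.runR j i (k + 1) (by omega) (by omega))
      have e : j * j + 2 * k + 1 + 2 = j * j + 2 * (k + 1) + 1 := by ring
      rw [e]
      push_cast at h6
      nlinarith
    · obtain rfl : k = j := le_antisymm hk hkj
      -- red waits in `(k+1)^2`, black catches up
      have h1 : ex (k * k + 2 * k + 1) + k ≤ ex (k * k + 2 * i + 1) := by
        have e : k * k + 2 * k + 1 = (k + 1) * (k + 1) + 2 * 0 := by ring
        rw [e, ex_even (by omega : 0 ≤ k + 1), ex_odd h]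
        have h3 : k * (i + 1) = k * i + k := by ring
        omega
      rw [stepR_symm]
      refine (stepR_red h1).trans ?_
      rcases Nat.lt_or_ge (i + 1) k with hik | hik
      · have h6 := v_le (Good.runB k (i + 1) k hik le_rfl)
        have e : k * k + 2 * i + 1 + 2 = k * k + 2 * (i + 1) + 1 := by ring
        rw [e]
        push_cast at h6
        nlinarith
      · obtain rfl : k = i + 1 := by omega
        have h6 := v_le (Good.lane (i + 1 + 1) 0 (by omega))
        rw [T_succ] at h6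
        have e1 : (i + 1) * (i + 1) + 2 * (i + 1) + 1 = (i + 1 + 1) * (i + 1 + 1) + 2 * 0 := by
          ring
        have e2 : (i + 1) * (i + 1) + 2 * i + 1 + 2 = (i + 1 + 1) * (i + 1 + 1) + 2 * 0 := by
          ring
        rw [e1, e2]
        push_cast
        nlinarith

lemma good_step {b r : ℕ} {x : ℝ} (h : Good b r x) : stepR v b r ≤ x := by
  rcases le_total b r with hbr | hbr
  · exact good_step_aux hbr h
  · rw [stepR_symm]
    exact good_step_aux hbr h.symm

/-- The potential decreases in mean. -/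
theorem stepR_le (b r : ℕ) : stepR v b r ≤ v b r := by
  refine le_csInf ⟨1, Set.mem_insert _ _⟩ ?_
  rintro x (rfl | hx)
  · exact stepR_le_one b r
  · exact good_step hx

/-- In good configurations neither colour is far ahead. -/
lemma good_close {b r : ℕ} {x : ℝ} (h : Good b r x) : r ≤ b + 2 * b + 1 + 1 := by
  have hj : ∀ j : ℕ, j ≤ j * j := fun j => Nat.le_mul_self j
  cases h with
  | lane j i h => omega
  | comp j i h => omega
  | laneB j i h => omega
  | laneR j i h => omega
  | runB j i k h hk => omega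
  | runR j i k h hk => have := hj j; omega

end Pool.Agent.Lib.MP_0b3b8e_pr
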